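import Pool.Agent.Q226.FL2.Defs
import Pool.Agent.H547R3.TmDefs

/-!
# Turing machines whose transitions carry tags

The input has a bit for each position `(e, k)`, where `e` is a possible transition and `k < T` is a
tag, which tells whether the machine has the transition `e` with the tag `k`.
-/

set_option autoImplicit false

namespace Pool.Agent.Q226.HLT

open Pool.Agent.H547R3.Halt

/-- no transition is repeated: at most one tag for each transition -/
def NoRepetition {n T : ℕ} (x : Tr n × Fin T → Bool) : Prop :=
  ∀ e k k', x (e, k) = true → x (e, k') = true → k = k'

/-- the set of transitions, without the tags -/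
def transitions {n T : ℕ} (x : Tr n × Fin T → Bool) : Tr n → Bool :=
  fun e => decide (∃ k, x (e, k) = true)

end Pool.Agent.Q226.HLT
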