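import Pool.Agent.Q226.HLT.Defs
import Pool.Agent.Q226.FL2.Nm
import Pool.Agent.H547R3.Tm5

/-! # Short halting with unreliable negations -/

set_option autoImplicit false

open Finset Filter

namespace Pool.Agent.Q226.HLT

open Pool.Agent.H547R3.Halt Pool.Agent.H520R2.NM Pool.Agent.Q226.FL2 Pool.Agent.Q226.FLT

lemma noRepetition_host {n T : ℕ} (t : Tr n → Fin T) (M : Tr n → Bool) :
    NoRepetition (host t M) := by
  intro e k k' h h'
  unfold host at h h'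
  simp only [Bool.and_eq_true, decide_eq_true_eq] at h h'
  rw [h.2, h'.2]

lemma transitions_host {n T : ℕ} (t : Tr n → Fin T) (M : Tr n → Bool) :
    transitions (host t M) = M := by
  funext e
  unfold transitions host
  by_cases h : M e = true
  · simp [h]
  · have h' : M e = false := by simpa using h
    simp [h']

lemma card_tr (n : ℕ) : Fintype.card (Tr n) = 3 * (n + 1) ^ 4 := by
  simp only [Tr, Fintype.card_prod, Fintype.card_fin]
  ring

/-- for large `n` the number `n ^ (-α)` is small -/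
lemma small_rpow {α : ℝ} (hα : 0 < α) : ∀ᶠ n : ℕ in atTop, (n : ℝ) ^ (-α) < 1 / 10 := by
  have h := (tendsto_rpow_neg_atTop hα).comp tendsto_natCast_atTop_atTop
  exact h.eventually (gt_mem_nhds (by norm_num))

open Classical in
theorem main (ε : ℝ) (hε : 0 < ε) : ∃ δ : ℝ, 0 < δ ∧ ∀ᶠ K : ℕ in atTop, ∀ᶠ n : ℕ in atTop,
    ∀ D T : ℕ, 1 ≤ D → 2400 * D * (n + 1) ^ 4 ≤ T →
    ∀ (Ω : Type) [Fintype Ω] [Nonempty Ω] (N : Ω → ℕ)
      (C : ∀ ω, Circuit ((Tr n × Fin T) × Bool) (N ω))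
      (out : ∀ ω, Wire ((Tr n × Fin T) × Bool) (N ω)),
      (∀ ω, ((((C ω).fanins.map (· + 1)).prod : ℕ) : ℝ) ≤ (n : ℝ) ^ (4 - ε)) →
      (∀ ω, (((C ω).size + (C ω).fanins.sum : ℕ) : ℝ) <
        (n : ℝ) ^ (δ * (K : ℝ) ^ (1 / 3 : ℝ))) →
      ∃ x : Tr n × Fin T → Bool, NoRepetition x ∧
        faultyProbability (fun ω y => ((out ω).eval y ((C ω).vals y) = true ↔
          HaltsWithin (transitions x) K)) D x < 2 / 3 := by
  obtain ⟨δ, hδ, h⟩ := halt_main ε hε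
  refine ⟨δ, hδ, ?_⟩
  filter_upwards [h] with K hK
  obtain ⟨α, hα, h1⟩ := hK
  filter_upwards [h1, small_rpow hα] with n hn hsmall
  obtain ⟨-, h2⟩ := hn
  intro D T hD hT Ω _ _ N C out hC1 hC2
  have : NeZero D := ⟨by omega⟩
  have hT0 : 0 < T := by
    have : 0 < 2400 * D * (n + 1) ^ 4 := by positivity
    omega
  have hT' : 800 * D * Fintype.card (Tr n) ≤ T := by
    rw [card_tr]
    calc 800 * D * (3 * (n + 1) ^ 4) = 2400 * D * (n + 1) ^ 4 := by ring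
      _ ≤ T := hT
  obtain ⟨M, -, t, hM⟩ := nm_lower hT0 hT' (fun M => HaltsWithin M K) (fun _ => True)
    (fun s f => (((f.map (· + 1)).prod : ℕ) : ℝ) ≤ (n : ℝ) ^ (4 - ε) ∧
      ((s + f.sum : ℕ) : ℝ) < (n : ℝ) ^ (δ * (K : ℝ) ^ (1 / 3 : ℝ))) (1 / 2 + (n : ℝ) ^ (-α))
    (fun Ω' _ w hw hw1 N' C' out' hS => by
      obtain ⟨M, hM⟩ := h2 Ω' w hw hw1 N' C' out' (fun r => (hS r).1) (fun r => (hS r).2)
      exact ⟨M, trivial, hM⟩) Ω N C out (fun ω => ⟨hC1 ω, hC2 ω⟩)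
  refine ⟨host t M, noRepetition_host t M, ?_⟩
  rw [transitions_host]
  exact hM.trans_le (by linarith)

end Pool.Agent.Q226.HLT
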